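import Pool.Agent.MAE.MainE

/-!
Asymptotically almost every matroid is asymmetric, and the labelled and unlabelled proportions of
every isomorphism closed property (such as being paving) agree asymptotically.
-/

namespace Pool.Agent.Results.MP_f46acb_co.AlmostAllAsymmetric

open Pool.Agent.Helper3.MAS Pool.Agent.MAE

/-- There is `c > 0` such that for all large `n` and every isomorphism closed property `P` of
matroids on `n` elements the labelled and the unlabelled proportion of `P` differ by at most
`exp (-c C(n, n/2) / n)`, and the proportion of asymmetric matroids among the labelled and among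
the unlabelled matroids on `n` elements is at least `1 - exp (-c C(n, n/2) / n)`. -/
theorem result : ∃ c : ℝ, 0 < c ∧ ∃ n₀ : ℕ, ∀ n ≥ n₀,
    (∀ P : Set (LabelledMatroid n), IsoClosed P →
      |unlabelledProportion P - labelledProportion P| ≤
        Real.exp (-(c * (n.choose (n / 2) : ℝ) / n))) ∧
    1 - Real.exp (-(c * (n.choose (n / 2) : ℝ) / n)) ≤
      labelledProportion {M : LabelledMatroid n | Asymmetric M} ∧
    1 - Real.exp (-(c * (n.choose (n / 2) : ℝ) / n)) ≤
      unlabelledProportion {M : LabelledMatroid n | Asymmetric M} := all_matroids

end Pool.Agent.Results.MP_f46acb_co.AlmostAllAsymmetric
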