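import Pool.Agent.MAE.MainE

/-!
Almost all paving matroids have no nontrivial automorphism, and the number of labelled paving
matroids is asymptotic to `n!` times the number of unlabelled ones.
-/

namespace Pool.Agent.Results.MP_f46acb_co.PavingAsymmetric

open Pool.Agent.Helper3.MAS Pool.Agent.MAE Filter Topology

/-- There is `c > 0` such that for all large `n`: the number of labelled paving matroids on `n`
elements is at most `n!` times the number of unlabelled ones, which is at most
`1 + exp (-c C(n, n/2) / n)` times the number of labelled ones; and the number of asymmetric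
labelled paving matroids is at least `1 - exp (-c C(n, n/2) / n)` times the number of all. -/
theorem result : ∃ c : ℝ, 0 < c ∧ ∃ n₀ : ℕ, ∀ n ≥ n₀,
    ((pavingSet n).ncard : ℝ) ≤
      (Quotient.mk (isoSetoid n) '' pavingSet n).ncard * n.factorial ∧
    ((Quotient.mk (isoSetoid n) '' pavingSet n).ncard : ℝ) * n.factorial ≤
      (1 + Real.exp (-(c * (n.choose (n / 2) : ℝ) / n))) * (pavingSet n).ncard ∧
    (1 - Real.exp (-(c * (n.choose (n / 2) : ℝ) / n))) * (pavingSet n).ncard ≤
      ({M | M ∈ pavingSet n ∧ Asymmetric M}.ncard : ℝ) := all_paving

end Pool.Agent.Results.MP_f46acb_co.PavingAsymmetric
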